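import Pool.Agent.H43.Chr.Cover

set_option autoImplicit false

namespace Pool.Agent.H43.Chr

open Finset

/-- The `ℓ₁`-norm of an integer vector. -/
def nz {n : ℕ} (v : Fin n → ℤ) : ℤ := ∑ i, |v i|

/-- The score of a coordinate: `|w| - 2 sgn(w) x` truncated to `[-2|w|, 2|w|]`. -/
def sc (w x : ℤ) : ℤ := max (-(2 * |w|)) (min (2 * |w|) (|w| - 2 * w.sign * x))

theorem sc_pos {w : ℤ} (hw : 0 < w) (x : ℤ) :
    sc w x = max (-(2 * w)) (min (2 * w) (w - 2 * x)) := by
  unfold sc
  rw [abs_of_pos hw, Int.sign_eq_one_of_pos hw]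
  ring_nf

theorem sc_neg {w : ℤ} (hw : w < 0) (x : ℤ) :
    sc w x = max (2 * w) (min (-(2 * w)) (-w + 2 * x)) := by
  unfold sc
  rw [abs_of_neg hw, Int.sign_eq_neg_one_of_neg hw]
  ring_nf

theorem sc_zero (x : ℤ) : sc 0 x = 0 := by
  simp [sc]

theorem sc_add (w x y : ℤ) : sc w x + sc (-w) y ≤ 2 * |w + y - x| := by
  rcases lt_trichotomy w 0 with h | h | h
  · rw [sc_neg h, sc_pos (by omega : 0 < -w)]
    rcases abs_cases (w + y - x) with ⟨h1, _⟩ | ⟨h1, _⟩ <;> rw [h1] <;> omega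
  · subst h
    rw [neg_zero, sc_zero, sc_zero]
    have := abs_nonneg (0 + y - x)
    omega
  · rw [sc_pos h, sc_neg (by omega : -w < 0)]
    rcases abs_cases (w + y - x) with ⟨h1, _⟩ | ⟨h1, _⟩ <;> rw [h1] <;> omega

/-- Position of a grid point of the box. -/
def pos {n L : ℕ} (u : Fin n → Fin L) : Fin n → ℤ := fun i => ((u i).val : ℤ)

theorem color_of_cells {n : ℕ} (L ρ D D₀ K M P B a : ℕ) (Q : Finset (Fin n → ℤ))
    (hQ1 : ∀ x ∈ Q, ∀ y ∈ Q, nz (x - y) ≤ D₀) (hQ2 : ∀ x ∈ Q, ∀ i, |x i| ≤ (ρ : ℤ))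
    (hD : 0 < D) (hL : 0 < L)
    (hbad : ∀ x ∈ Q, ∀ u : Fin n → Fin L,
      (univ.filter fun v : Fin n → Fin L => ∑ i, sc (pos v i - pos u i) (x i) < D).card ≤ B)
    (hK : 2 * (K * B) ≤ L ^ n) (hP : L + 2 * ρ + D ≤ P) (ha : 2 * a ≤ K * Q.card)
    (hM : P ^ n * (P ^ n - a) ^ M < (P ^ n) ^ M) :
    ∃ c : (Fin n → ℝ) → Fin M, ∀ z z' : Fin n → ℝ,
      (D₀ : ℝ) + n < ∑ i, |z i - z' i| → ∑ i, |z i - z' i| + n < D → c z ≠ c z' := by
  classical
  obtain ⟨u, hu⟩ := exists_centres (β := Fin n → Fin L) K Q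
    (fun u v x => ∑ i, sc (pos v i - pos u i) (x i) < D) B
    (fun u x hx => hbad x hx u)
    (by simpa using hK) (by simpa using Nat.pow_pos hL)
  set S : Fin K → Finset (Fin n → ℤ) := fun i =>
    Q.filter fun x => ∀ j, j ≠ i → ¬ ∑ k, sc (pos (u j) k - pos (u i) k) (x k) < D with hS
  -- points of different cells
  have hsep : ∀ i j, i ≠ j → ∀ x ∈ S i, ∀ y ∈ S j,
      (D : ℤ) ≤ nz ((pos (u i) + x) - (pos (u j) + y)) := by
    intro i j hij x hx y hy
    simp only [hS, mem_filter] at hx hy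
    have h1 := hx.2 j hij.symm
    have h2 := hy.2 i hij
    push Not at h1 h2
    have h3 : ∑ k, sc (pos (u j) k - pos (u i) k) (x k)
        + ∑ k, sc (pos (u i) k - pos (u j) k) (y k)
        ≤ 2 * nz ((pos (u i) + x) - (pos (u j) + y)) := by
      unfold nz
      rw [← sum_add_distrib, mul_sum]
      refine sum_le_sum fun k _ => ?_
      have := sc_add (pos (u j) k - pos (u i) k) (x k) (y k)
      rw [neg_sub] at this
      refine this.trans (le_of_eq ?_)
      simp only [Pi.sub_apply, Pi.add_apply]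
      rw [← abs_neg]
      congr 2
      ring
    omega
  have hsame : ∀ i, ∀ x ∈ S i, ∀ y ∈ S i,
      nz ((pos (u i) + x) - (pos (u i) + y)) ≤ (D₀ : ℤ) := by
    intro i x hx y hy
    simp only [hS, mem_filter] at hx hy
    rw [add_sub_add_left_eq_sub]
    exact hQ1 x hx.1 y hy.1
  have hnz0 : ∀ v : Fin n → ℤ, nz (v - v) = 0 := by
    intro v
    simp [nz]
  set C₀ : Finset (Fin n → ℤ) := univ.biUnion fun i => (S i).image fun x => pos (u i) + x with hC₀
  have hC₀card : C₀.card = ∑ i, (S i).card := by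
    rw [hC₀, card_biUnion]
    · refine sum_congr rfl fun i _ => ?_
      exact card_image_of_injective _ (add_right_injective _)
    · intro i _ j _ hij
      rw [Function.onFun, disjoint_left]
      intro v hv hv'
      rw [mem_image] at hv hv'
      obtain ⟨x, hx, rfl⟩ := hv
      obtain ⟨y, hy, hxy⟩ := hv'
      have := hsep i j hij x hx y hy
      rw [hxy, hnz0] at this
      omega
  have hC₀mem : ∀ v ∈ C₀, ∃ i, ∃ x ∈ S i, v = pos (u i) + x := by
    intro v hv
    simp only [hC₀, mem_biUnion, mem_univ, true_and, mem_image] at hv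
    obtain ⟨i, x, hx, rfl⟩ := hv
    exact ⟨i, x, hx, rfl⟩
  have hdist : ∀ v ∈ C₀, ∀ v' ∈ C₀, nz (v - v') ≤ D₀ ∨ (D : ℤ) ≤ nz (v - v') := by
    intro v hv v' hv'
    obtain ⟨i, x, hx, rfl⟩ := hC₀mem v hv
    obtain ⟨j, y, hy, rfl⟩ := hC₀mem v' hv'
    by_cases hij : i = j
    · subst hij
      exact Or.inl (hsame i x hx y hy)
    · exact Or.inr (hsep i j hij x hx y hy)
  have hcoord : ∀ v ∈ C₀, ∀ k, -(ρ : ℤ) ≤ v k ∧ v k ≤ L - 1 + ρ := by
    intro v hv k
    obtain ⟨i, x, hx, rfl⟩ := hC₀mem v hv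
    have h1 : |x k| ≤ (ρ : ℤ) := hQ2 x (by
      simp only [hS, mem_filter] at hx
      exact hx.1) k
    have h2 := abs_le.1 h1
    have h3 := (u i k).2
    simp only [Pi.add_apply, pos]
    omega
  have hcd : ∀ v ∈ C₀, ∀ v' ∈ C₀, ∀ k, |v k - v' k| ≤ (L : ℤ) - 1 + 2 * ρ := by
    intro v hv v' hv' k
    have h1 := hcoord v hv k
    have h2 := hcoord v' hv' k
    rw [abs_le]
    constructor <;> omega
  have hPpos : 0 < P := by omega
  have : NeZero P := ⟨hPpos.ne'⟩
  set q : (Fin n → ℤ) → (Fin n → ZMod P) := fun v k => ((v k : ℤ) : ZMod P) with hq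
  have hqinj : Set.InjOn q C₀ := by
    intro v hv v' hv' hvv
    funext k
    have h1 := congrFun hvv k
    simp only [hq] at h1
    rw [ZMod.intCast_eq_intCast_iff_dvd_sub] at h1
    have h2 := hcd v' hv' v hv k
    by_contra hne
    have h3 := Int.le_of_dvd (abs_pos.2 (sub_ne_zero.2 (Ne.symm hne))) ((dvd_abs _ _).2 h1)
    omega
  have hAcard : (C₀.image q).card = C₀.card := card_image_of_injOn hqinj
  have hT : Fintype.card (Fin n → ZMod P) = P ^ n := by
    rw [Fintype.card_fun, ZMod.card, Fintype.card_fin]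
  have haA : a ≤ (C₀.image q).card := by
    rw [hAcard, hC₀card]
    simp only [hS]
    omega
  obtain ⟨t, ht⟩ := exists_cover (C₀.image q) M (by
    rw [hT]
    refine lt_of_le_of_lt ?_ hM
    gcongr)
  choose c hc using ht
  refine ⟨fun z => c (q fun k => round (z k)), fun z z' h1 h2 hcc => ?_⟩
  have e1 := hc (q fun k => round (z k))
  have e2 := hc (q fun k => round (z' k))
  simp only at hcc
  rw [← hcc] at e2
  rw [mem_image] at e1 e2
  obtain ⟨v, hv, hv1⟩ := e1
  obtain ⟨v', hv', hv1'⟩ := e2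
  set h : Fin n → ℤ := fun k => round (z k) - round (z' k) with hh
  have hcong : ∀ k, (P : ℤ) ∣ h k - (v k - v' k) := by
    intro k
    have f1 := congrFun hv1 k
    have f2 := congrFun hv1' k
    simp only [hq, Pi.sub_apply] at f1 f2
    rw [← ZMod.intCast_eq_intCast_iff_dvd_sub]
    simp only [hh]
    push_cast
    rw [f1, f2]
    ring
  have hkey : nz h ≤ D₀ ∨ (D : ℤ) ≤ nz h := by
    by_cases hall : ∀ k, h k = v k - v' k
    · have : h = v - v' := by
        funext k
        rw [hall k]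
        rfl
      rw [this]
      exact hdist v hv v' hv'
    · push Not at hall
      obtain ⟨k, hk⟩ := hall
      right
      have f1 := Int.le_of_dvd (abs_pos.2 (sub_ne_zero.2 hk)) ((dvd_abs _ _).2 (hcong k))
      have f2 := hcd v hv v' hv' k
      have f3 : |h k - (v k - v' k)| ≤ |h k| + |v k - v' k| := abs_sub _ _
      have f4 : |h k| ≤ nz h := by
        unfold nz
        exact single_le_sum (f := fun i => |h i|) (fun i _ => abs_nonneg _) (mem_univ k)
      omega
  -- rounding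
  have hround : |∑ i, |z i - z' i| - (nz h : ℝ)| ≤ n := by
    have f1 : (nz h : ℝ) = ∑ i, |((h i : ℤ) : ℝ)| := by
      unfold nz
      push_cast
      rfl
    rw [f1, ← sum_sub_distrib]
    refine (abs_sum_le_sum_abs _ _).trans ?_
    calc ∑ i, |(|z i - z' i| - |((h i : ℤ) : ℝ)|)| ≤ ∑ _i : Fin n, (1 : ℝ) := by
          refine sum_le_sum fun i _ => ?_
          refine (abs_abs_sub_abs_le _ _).trans ?_
          have g1 := abs_sub_round (z i)
          have g2 := abs_sub_round (z' i)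
          simp only [hh]
          push_cast
          rw [abs_le] at g1 g2 ⊢
          constructor <;> linarith [g1.1, g1.2, g2.1, g2.2]
      _ = n := by simp
  rw [abs_le] at hround
  rcases hkey with hk | hk
  · have : (nz h : ℝ) ≤ D₀ := by exact_mod_cast hk
    linarith [hround.2]
  · have : (D : ℝ) ≤ nz h := by exact_mod_cast hk
    linarith [hround.1]

end Pool.Agent.H43.Chr
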