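import Mathlib

set_option autoImplicit false

namespace Pool.Agent.H43.Chr

open Finset

/-- Few translates of a dense subset of a finite abelian group cover the group. -/
theorem exists_cover {T : Type*} [AddCommGroup T] [Fintype T] [DecidableEq T] (A : Finset T)
    (M : ℕ) (h : Fintype.card T * (Fintype.card T - A.card) ^ M < (Fintype.card T) ^ M) :
    ∃ t : Fin M → T, ∀ g, ∃ i, g - t i ∈ A := by
  by_contra hcon
  push Not at hcon
  have hsub : (univ : Finset (Fin M → T)) ⊆
      univ.biUnion fun g : T => Fintype.piFinset fun _ : Fin M => univ.filter fun τ => g - τ ∉ A := by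
    intro t _
    obtain ⟨g, hg⟩ := hcon t
    rw [mem_biUnion]
    refine ⟨g, mem_univ _, ?_⟩
    rw [Fintype.mem_piFinset]
    intro i
    simpa using hg i
  have hc := (card_le_card hsub).trans card_biUnion_le
  have h1 : ∀ g : T, (univ.filter fun τ => g - τ ∉ A).card = Fintype.card T - A.card := by
    intro g
    have h2 : (univ.filter fun τ => g - τ ∈ A).card = A.card := by
      refine card_bij (fun τ _ => g - τ) ?_ ?_ ?_
      · intro τ hτ
        simpa using hτ
      · intro a _ b _ hab
        simpa using hab
      · intro b hb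
        exact ⟨g - b, by simpa using hb, by simp⟩
    have h3 := card_filter_add_card_filter_not (s := (univ : Finset T)) (fun τ => g - τ ∈ A)
    rw [h2] at h3
    have h4 : (univ : Finset T).card = Fintype.card T := rfl
    omega
  simp only [Fintype.card_piFinset, h1, prod_const, card_univ, Fintype.card_fin, sum_const,
    smul_eq_mul, Fintype.card_fun] at hc
  omega

/-- Random centres: for every centre and every point of the cell few other centres are bad. -/
theorem exists_centres {β X : Type*} [Fintype β] [DecidableEq β] (K : ℕ) (Q : Finset X)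
    (bad : β → β → X → Prop) [∀ u v x, Decidable (bad u v x)] (B : ℕ)
    (hB : ∀ u, ∀ x ∈ Q, (univ.filter fun v => bad u v x).card ≤ B)
    (hK : 2 * (K * B) ≤ Fintype.card β) (hβ : 0 < Fintype.card β) :
    ∃ u : Fin K → β, K * Q.card ≤
      2 * ∑ i, (Q.filter fun x => ∀ j, j ≠ i → ¬ bad (u i) (u j) x).card := by
  classical
  -- number of configurations with a given bad pair
  have hpair : ∀ i j : Fin K, j ≠ i → ∀ x ∈ Q,
      (univ.filter fun u : Fin K → β => bad (u i) (u j) x).card
        ≤ B * Fintype.card β ^ (K - 1) := by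
    intro i j hij x hx
    have h1 := card_le_mul_card_image (s := univ.filter fun u : Fin K → β => bad (u i) (u j) x)
      (f := fun (u : Fin K → β) (k : {k : Fin K // k ≠ j}) => u k) (n := B) ?_
    · refine h1.trans (Nat.mul_le_mul_left _ ?_)
      refine (card_le_univ _).trans (le_of_eq ?_)
      rw [Fintype.card_fun, Fintype.card_subtype_compl, Fintype.card_fin,
        Fintype.card_subtype_eq]
    · intro h _
      refine le_trans ?_ (hB (h ⟨i, hij.symm⟩) x hx)
      refine card_le_card_of_injOn (fun u => u j) ?_ ?_
      · intro u hu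
        simp only [coe_filter, mem_filter, mem_univ, true_and, Set.mem_ofPred_eq] at hu ⊢
        obtain ⟨hu1, hu2⟩ := hu
        rw [← hu2]
        exact hu1
      · intro u hu u' hu' huu
        simp only [coe_filter, mem_filter, mem_univ, true_and, Set.mem_ofPred_eq] at hu hu'
        funext k
        by_cases hk : k = j
        · rw [hk]
          exact huu
        · have := congrFun (hu.2.trans hu'.2.symm) ⟨k, hk⟩
          exact this
  set bd : (Fin K → β) → Fin K → ℕ := fun u i =>
    (Q.filter fun x => ¬ ∀ j, j ≠ i → ¬ bad (u i) (u j) x).card with hbd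
  have htot : 2 * ∑ u : Fin K → β, ∑ i, bd u i ≤ K * Q.card * Fintype.card β ^ K := by
    have h1 : ∀ u i, bd u i ≤ ∑ x ∈ Q, ∑ j ∈ univ.filter fun j => j ≠ i,
        if bad (u i) (u j) x then 1 else 0 := by
      intro u i
      simp only [hbd]
      rw [card_filter]
      refine sum_le_sum fun x _ => ?_
      by_cases h : ∀ j, j ≠ i → ¬ bad (u i) (u j) x
      · rw [if_neg (not_not_intro h)]
        exact Nat.zero_le _
      · rw [if_pos h]
        push Not at h
        obtain ⟨j, hj, hb⟩ := h
        have : (if bad (u i) (u j) x then 1 else 0) ≤ ∑ j ∈ univ.filter fun j => j ≠ i,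
            if bad (u i) (u j) x then 1 else 0 :=
          single_le_sum (f := fun j => if bad (u i) (u j) x then 1 else 0)
            (fun _ _ => Nat.zero_le _) (by simpa using hj)
        rwa [if_pos hb] at this
    have h2 : ∑ u : Fin K → β, ∑ i, bd u i ≤ ∑ i : Fin K, ∑ x ∈ Q,
        ∑ j ∈ univ.filter fun j => j ≠ i,
          (univ.filter fun u : Fin K → β => bad (u i) (u j) x).card := by
      calc ∑ u : Fin K → β, ∑ i, bd u i
          ≤ ∑ u : Fin K → β, ∑ i, ∑ x ∈ Q, ∑ j ∈ univ.filter fun j => j ≠ i,
            (if bad (u i) (u j) x then 1 else 0) :=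
            sum_le_sum fun u _ => sum_le_sum fun i _ => h1 u i
        _ = ∑ i : Fin K, ∑ u : Fin K → β, ∑ x ∈ Q, ∑ j ∈ univ.filter fun j => j ≠ i,
            (if bad (u i) (u j) x then 1 else 0) := sum_comm
        _ = ∑ i : Fin K, ∑ x ∈ Q, ∑ j ∈ univ.filter fun j => j ≠ i, ∑ u : Fin K → β,
            (if bad (u i) (u j) x then 1 else 0) := by
            refine sum_congr rfl fun i _ => ?_
            rw [sum_comm]
            refine sum_congr rfl fun x _ => ?_
            rw [sum_comm]
        _ = _ := by
            refine sum_congr rfl fun i _ => sum_congr rfl fun x _ => sum_congr rfl fun j _ => ?_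
            rw [card_filter]
    have h3 : ∑ i : Fin K, ∑ x ∈ Q, ∑ j ∈ univ.filter fun j => j ≠ i,
          (univ.filter fun u : Fin K → β => bad (u i) (u j) x).card
        ≤ ∑ i : Fin K, ∑ x ∈ Q, K * (B * Fintype.card β ^ (K - 1)) := by
      refine sum_le_sum fun i _ => sum_le_sum fun x hx => ?_
      calc ∑ j ∈ univ.filter fun j => j ≠ i,
            (univ.filter fun u : Fin K → β => bad (u i) (u j) x).card
          ≤ ∑ j ∈ univ.filter fun j => j ≠ i, B * Fintype.card β ^ (K - 1) :=
            sum_le_sum fun j hj => hpair i j (by simpa using hj) x hx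
        _ ≤ K * (B * Fintype.card β ^ (K - 1)) := by
            rw [sum_const, smul_eq_mul]
            refine Nat.mul_le_mul_right _ ?_
            exact (card_le_univ _).trans (by simp)
    simp only [sum_const, card_univ, Fintype.card_fin, smul_eq_mul] at h3
    rcases Nat.eq_zero_or_pos K with hK0 | hK0
    · subst hK0
      simp
    · have h4 : Fintype.card β ^ K = Fintype.card β * Fintype.card β ^ (K - 1) := by
        rw [← pow_succ', Nat.sub_add_cancel hK0]
      calc 2 * ∑ u : Fin K → β, ∑ i, bd u i
          ≤ 2 * (K * (Q.card * (K * (B * Fintype.card β ^ (K - 1))))) :=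
            Nat.mul_le_mul_left _ (h2.trans h3)
        _ = K * Q.card * ((2 * (K * B)) * Fintype.card β ^ (K - 1)) := by ring
        _ ≤ K * Q.card * (Fintype.card β * Fintype.card β ^ (K - 1)) := by gcongr
        _ = K * Q.card * Fintype.card β ^ K := by rw [h4]
  have hex : ∃ u : Fin K → β, 2 * ∑ i, bd u i ≤ K * Q.card := by
    by_contra hcon
    push Not at hcon
    have h5 : ∑ _u : Fin K → β, K * Q.card < ∑ u : Fin K → β, 2 * ∑ i, bd u i := by
      have hne : (univ : Finset (Fin K → β)).Nonempty := by
        have : Nonempty β := Fintype.card_pos_iff.1 hβ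
        exact univ_nonempty
      exact sum_lt_sum_of_nonempty hne fun u _ => hcon u
    rw [sum_const, card_univ, Fintype.card_fun, Fintype.card_fin, smul_eq_mul, ← mul_sum] at h5
    have := h5.trans_le htot
    rw [mul_comm] at this
    exact lt_irrefl _ this
  obtain ⟨u, hu⟩ := hex
  refine ⟨u, ?_⟩
  have h6 : ∀ i, (Q.filter fun x => ∀ j, j ≠ i → ¬ bad (u i) (u j) x).card + bd u i = Q.card := by
    intro i
    simp only [hbd]
    exact card_filter_add_card_filter_not _
  have h7 : ∑ i, (Q.filter fun x => ∀ j, j ≠ i → ¬ bad (u i) (u j) x).card + ∑ i, bd u i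
      = K * Q.card := by
    rw [← sum_add_distrib, sum_congr rfl fun i _ => h6 i]
    simp
  omega

end Pool.Agent.H43.Chr
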