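import Pool.Agent.H43.Chr.Theta
import Pool.Agent.H43.L1.Defs

set_option autoImplicit false

namespace Pool.Agent.H43.Chr

open Finset Real Filter

/-- The number of bad second points. -/
theorem count_bad {t : ℝ} (ht : 0 < t) {n L : ℕ} (D : ℕ) (x : Fin n → ℤ) (u : Fin n → Fin L) :
    ((univ.filter fun v : Fin n → Fin L => ∑ i, sc (pos v i - pos u i) (x i) < D).card : ℝ)
      ≤ exp (t * D) * ∏ i, gam t (x i).natAbs := by
  have h1 : ((univ.filter fun v : Fin n → Fin L => ∑ i, sc (pos v i - pos u i) (x i) < D).card : ℝ)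
      ≤ ∑ v : Fin n → Fin L, exp (t * D) * ∏ i, exp (-(t * sc (((v i).val : ℤ) - (u i).val) (x i))) := by
    rw [card_filter, Nat.cast_sum]
    refine sum_le_sum fun v _ => ?_
    rw [← exp_sum, ← exp_add]
    split_ifs with h
    · rw [Nat.cast_one]
      apply one_le_exp
      have h2 : ((∑ i, sc (pos v i - pos u i) (x i) : ℤ) : ℝ) ≤ D := by
        have : (∑ i, sc (pos v i - pos u i) (x i) : ℤ) ≤ (D : ℤ) := h.le
        exact_mod_cast this
      have h3 : ∑ i, -(t * (sc (((v i).val : ℤ) - (u i).val) (x i) : ℝ))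
          = -(t * ((∑ i, sc (pos v i - pos u i) (x i) : ℤ) : ℝ)) := by
        push_cast
        rw [mul_sum, ← sum_neg_distrib]
        rfl
      rw [h3]
      nlinarith
    · rw [Nat.cast_zero]
      exact (exp_pos _).le
  refine h1.trans ?_
  rw [← mul_sum]
  have h4 : ∑ v : Fin n → Fin L, ∏ i, exp (-(t * sc (((v i).val : ℤ) - (u i).val) (x i)))
      = ∏ i, ∑ a : Fin L, exp (-(t * sc ((a.val : ℤ) - (u i).val) (x i))) := by
    rw [prod_univ_sum, Fintype.piFinset_univ]
  rw [h4]
  gcongr with i _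
  exact sum_fin ht (x i) L (u i)

theorem exists_class {t : ℝ} (ht : 0 < t) (n M C₂ : ℕ)
    (hC : ∀ y ≤ M, log (gam t y) ≤ C₂) :
    ∃ (k : ℕ) (Q : Finset (Fin n → ℤ)) (G : ℝ), k ≤ n * M ∧ 1 ≤ G ∧ G ≤ exp (n * C₂) ∧
      (∀ x ∈ Q, (∀ i, |x i| ≤ (M : ℤ)) ∧ nz x = k ∧ ∏ i, gam t (x i).natAbs ≤ exp 1 * G) ∧
      theta t M ^ n / ((n * M + 1) * (n * C₂ + 1)) ≤ Q.card * exp (-(2 * t * k)) / G := by
  classical
  set s : Finset (Fin n → ℤ) := Fintype.piFinset fun _ => Icc (-(M : ℤ)) M with hs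
  set g : (Fin n → ℤ) → ℝ := fun x => ∏ i, gam t (x i).natAbs with hg
  have hg1 : ∀ x, 1 ≤ g x := by
    intro x
    simp only [hg]
    have : ∀ i ∈ (univ : Finset (Fin n)), (1 : ℝ) ≤ gam t (x i).natAbs :=
      fun i _ => one_le_gam ht _
    calc (1 : ℝ) = ∏ _i : Fin n, (1 : ℝ) := by simp
      _ ≤ _ := prod_le_prod (fun _ _ => zero_le_one) this
  have hmem : ∀ x ∈ s, ∀ i, |x i| ≤ (M : ℤ) := by
    intro x hx i
    rw [hs, Fintype.mem_piFinset] at hx
    have := hx i
    rw [mem_Icc] at this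
    exact abs_le.2 this
  have hlog : ∀ x ∈ s, log (g x) ≤ n * C₂ := by
    intro x hx
    simp only [hg]
    rw [log_prod (fun i _ => (gam_pos ht _).ne')]
    calc ∑ i, log (gam t (x i).natAbs) ≤ ∑ _i : Fin n, (C₂ : ℝ) := by
          refine sum_le_sum fun i _ => hC _ ?_
          have := abs_le.1 (hmem x hx i)
          omega
      _ = n * C₂ := by simp
  have hnzn : ∀ x ∈ s, 0 ≤ nz x ∧ nz x ≤ n * M := by
    intro x hx
    constructor
    · exact sum_nonneg fun i _ => abs_nonneg _
    · unfold nz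
      calc ∑ i, |x i| ≤ ∑ _i : Fin n, (M : ℤ) := sum_le_sum fun i _ => hmem x hx i
        _ = n * M := by simp
  have htot : ∑ x ∈ s, ∏ i, wt t (x i).natAbs = theta t M ^ n := by
    have h1 := prod_univ_sum (fun _ : Fin n => Icc (-(M : ℤ)) M)
      (fun (_ : Fin n) (a : ℤ) => wt t a.natAbs)
    rw [hs, ← h1]
    simp [theta]
  have hwt : ∀ x, ∏ i, wt t (x i).natAbs = exp (-(2 * t * (nz x : ℝ))) / g x := by
    intro x
    simp only [wt, hg]
    rw [prod_div_distrib, ← exp_sum]
    congr 2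
    rw [sum_neg_distrib, ← mul_sum]
    unfold nz
    push_cast
    congr 2
    refine sum_congr rfl fun i _ => ?_
    rw [Nat.cast_natAbs, Int.cast_abs]
  set cl : (Fin n → ℤ) → ℕ × ℕ := fun x => ((nz x).toNat, ⌊log (g x)⌋₊) with hcl
  have hmaps : ∀ x ∈ s, cl x ∈ range (n * M + 1) ×ˢ range (n * C₂ + 1) := by
    intro x hx
    rw [mem_product, mem_range, mem_range]
    constructor
    · have := hnzn x hx
      simp only [hcl]
      have h2 := this.2
      have h1 := this.1
      zify
      rw [Int.toNat_of_nonneg h1]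
      omega
    · simp only [hcl]
      rw [Nat.lt_succ_iff]
      apply Nat.floor_le_of_le
      have := hlog x hx
      push_cast
      exact this
  obtain ⟨⟨k, j⟩, hkj, hle⟩ := exists_le_sum_fiber_of_maps_to_of_nsmul_le_sum
    (s := s) (t := range (n * M + 1) ×ˢ range (n * C₂ + 1)) (f := cl)
    (w := fun x => ∏ i, wt t (x i).natAbs)
    (b := theta t M ^ n / ((n * M + 1) * (n * C₂ + 1))) hmaps
    (by simp) (by
      rw [htot, card_product, card_range, card_range, nsmul_eq_mul]
      push_cast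
      rw [mul_div_cancel₀]
      positivity)
  rw [mem_product, mem_range, mem_range] at hkj
  refine ⟨k, s.filter fun x => cl x = (k, j), exp j, by omega, one_le_exp (by positivity), ?_,
    ?_, ?_⟩
  · apply exp_le_exp.2
    have : j ≤ n * C₂ := by omega
    exact_mod_cast this
  · intro x hx
    rw [mem_filter] at hx
    obtain ⟨hxs, hxc⟩ := hx
    simp only [hcl, Prod.mk.injEq] at hxc
    refine ⟨hmem x hxs, ?_, ?_⟩
    · have h1 := (hnzn x hxs).1
      have h2 := hxc.1
      omega
    · have h3 : log (g x) < j + 1 := by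
        rw [← hxc.2]
        exact Nat.lt_floor_add_one _
      change g x ≤ _
      rw [← exp_add, ← exp_log (lt_of_lt_of_le one_pos (hg1 x))]
      exact exp_le_exp.2 (by linarith)
  · refine hle.trans ?_
    have h1 : ∀ x ∈ s.filter fun x => cl x = (k, j),
        ∏ i, wt t (x i).natAbs ≤ exp (-(2 * t * k)) / exp j := by
      intro x hx
      rw [mem_filter] at hx
      obtain ⟨hxs, hxc⟩ := hx
      simp only [hcl, Prod.mk.injEq] at hxc
      rw [hwt]
      have h2 : (nz x : ℝ) = k := by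
        have h3 := (hnzn x hxs).1
        have h4 := hxc.1
        have h5 : nz x = (k : ℤ) := by omega
        rw [h5]
        simp
      rw [h2]
      apply div_le_div_of_nonneg_left (exp_pos _).le (exp_pos _)
      have h6 : (j : ℝ) ≤ log (g x) := by
        rw [← hxc.2]
        exact Nat.floor_le (log_nonneg (hg1 x))
      calc exp j ≤ exp (log (g x)) := exp_le_exp.2 h6
        _ = g x := exp_log (lt_of_lt_of_le one_pos (hg1 x))
    refine (sum_le_sum h1).trans (le_of_eq ?_)
    rw [sum_const, nsmul_eq_mul]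
    ring

end Pool.Agent.H43.Chr
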