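import Pool.Agent.H43.Chr.Upper

set_option autoImplicit false
set_option maxHeartbeats 1000000

namespace Pool.Agent.H43.ChrU

open Finset Real Filter Pool.Agent.H43.Chr

theorem ratio_lt : exp (3 * (1 / 10 ^ 6)) / theta (1 / 10 ^ 6) 5000000 ≤ 2.7996 := by
  have h1 := theta_num
  have h2 : exp (3 * (1 / 10 ^ 6 : ℝ)) ≤ 1.000004 := by
    have h3 : |(3 * (1 / 10 ^ 6) : ℝ)| ≤ 1 := by norm_num [abs_of_pos]
    have h4 := abs_exp_sub_one_sub_id_le h3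
    rw [abs_le] at h4
    norm_num at h4 ⊢
    linarith [h4.2]
  rw [div_le_iff₀ (by linarith)]
  nlinarith

theorem colorable_eventually :
    ∀ᶠ n : ℕ in atTop, (Pool.Agent.H43.L1.unitGraph n).Colorable ⌊(2.8 : ℝ) ^ n⌋₊ := by
  set t : ℝ := 1 / 10 ^ 6 with ht
  obtain ⟨M, hM⟩ : ∃ M : ℕ, M = 5000000 := ⟨_, rfl⟩
  have ht0 : 0 < t := by
    rw [ht]
    positivity
  have hθ : 0 < theta t M := by
    have h0 : (0.3572 : ℝ) ≤ theta t 5000000 := theta_num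
    rw [hM]
    exact lt_of_lt_of_le (by norm_num) h0
  have hT : exp (3 * t) / theta t M ≤ 2.7996 := by
    rw [hM]
    exact ratio_lt
  obtain ⟨C₂, hC⟩ : ∃ C₂ : ℕ, ∀ y ≤ M, log (gam t y) ≤ C₂ := by
    refine ⟨⌈∑ y ∈ range (M + 1), gam t y⌉₊, fun y hy => ?_⟩
    calc log (gam t y) ≤ gam t y := (log_le_sub_one_of_pos (gam_pos ht0 y)).trans (by linarith)
      _ ≤ ∑ y ∈ range (M + 1), gam t y :=
          single_le_sum (f := fun y => gam t y) (fun y _ => (gam_pos ht0 y).le)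
            (mem_range.2 (by omega))
      _ ≤ _ := Nat.le_ceil _
  set A : ℝ := 16 * exp 1 ^ 2 * ((M + 1) * (C₂ + 1)) * (2 * (4 * M + 3)) with hA
  have hA0 : 0 < A := by positivity
  have hlim : Tendsto (fun n : ℕ => (n : ℝ) ^ 5 * (2.7996 / 2.8 : ℝ) ^ n) atTop (nhds 0) :=
    tendsto_pow_const_mul_const_pow_of_abs_lt_one 5 (by rw [abs_of_pos] <;> norm_num)
  have h1 : ∀ᶠ n : ℕ in atTop, (n : ℝ) ^ 5 * (2.7996 / 2.8 : ℝ) ^ n < 1 / (2 * A) :=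
    hlim.eventually_lt_const (by positivity)
  have h2 : ∀ᶠ n : ℕ in atTop, 4 * exp (t * (2 * M + 3) + 1 + C₂) ≤ n :=
    (tendsto_natCast_atTop_atTop (R := ℝ)).eventually_ge_atTop _
  filter_upwards [h1, h2, eventually_ge_atTop 1] with n hn1 hn2 hn3
  apply colorable_of ht0 n M C₂ _ hn3 hC hθ hn2
  have hnR : (1 : ℝ) ≤ n := by exact_mod_cast hn3
  have hfl : (2.8 : ℝ) ^ n - 1 < ⌊(2.8 : ℝ) ^ n⌋₊ := by
    have := Nat.lt_floor_add_one ((2.8 : ℝ) ^ n)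
    linarith
  refine lt_of_le_of_lt ?_ hfl
  have hMR : (0 : ℝ) ≤ M := Nat.cast_nonneg M
  have hCR : (0 : ℝ) ≤ C₂ := Nat.cast_nonneg C₂
  have e1 : ((n : ℝ) * M + 1) * (n * C₂ + 1) ≤ n ^ 2 * ((M + 1) * (C₂ + 1)) := by
    have f1 : (n : ℝ) * M + 1 ≤ n * (M + 1) := by nlinarith
    have f2 : (n : ℝ) * C₂ + 1 ≤ n * (C₂ + 1) := by nlinarith
    calc ((n : ℝ) * M + 1) * (n * C₂ + 1) ≤ (n * (M + 1)) * (n * (C₂ + 1)) := by gcongr
      _ = _ := by ring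
  have e2 : log (((n : ℝ) + 1) * (2 * M + 2 * n * M + 3 * n)) ≤ n ^ 2 * (2 * (4 * M + 3)) := by
    have f0 : 0 < ((n : ℝ) + 1) * (2 * M + 2 * n * M + 3 * n) := by positivity
    refine (log_le_sub_one_of_pos f0).trans ?_
    have f1 : (n : ℝ) + 1 ≤ 2 * n := by linarith
    have f2 : 2 * (M : ℝ) + 2 * n * M + 3 * n ≤ n * (4 * M + 3) := by nlinarith
    calc ((n : ℝ) + 1) * (2 * M + 2 * n * M + 3 * n) - 1
        ≤ (2 * n) * (n * (4 * M + 3)) := by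
          have : ((n : ℝ) + 1) * (2 * M + 2 * n * M + 3 * n) ≤ (2 * n) * (n * (4 * M + 3)) := by
            gcongr
          linarith
      _ = _ := by ring
  have e0 : 0 ≤ log (((n : ℝ) + 1) * (2 * M + 2 * n * M + 3 * n)) := by
    apply log_nonneg
    nlinarith
  have hTpos : 0 ≤ exp (3 * t) / theta t M := by positivity
  have e3 : 16 * exp 1 ^ 2 * (((n : ℝ) * M + 1) * (n * C₂ + 1)) * (exp (3 * t) / theta t M) ^ n
      * (n * log (((n : ℝ) + 1) * (2 * M + 2 * n * M + 3 * n)))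
      ≤ A * (n ^ 5 * (2.7996 : ℝ) ^ n) := by
    calc 16 * exp 1 ^ 2 * (((n : ℝ) * M + 1) * (n * C₂ + 1)) * (exp (3 * t) / theta t M) ^ n
        * (n * log (((n : ℝ) + 1) * (2 * M + 2 * n * M + 3 * n)))
        ≤ 16 * exp 1 ^ 2 * (n ^ 2 * ((M + 1) * (C₂ + 1))) * (2.7996 : ℝ) ^ n
          * (n * (n ^ 2 * (2 * (4 * M + 3)))) := by gcongr
      _ = A * (n ^ 5 * (2.7996 : ℝ) ^ n) := by
          rw [hA]
          ring
  refine e3.trans ?_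
  have e4 : (n : ℝ) ^ 5 * (2.7996 : ℝ) ^ n = ((n : ℝ) ^ 5 * (2.7996 / 2.8 : ℝ) ^ n) * 2.8 ^ n := by
    rw [div_pow]
    field_simp
  rw [e4]
  have e5 : A * (((n : ℝ) ^ 5 * (2.7996 / 2.8 : ℝ) ^ n) * 2.8 ^ n) ≤ A * (1 / (2 * A) * 2.8 ^ n) := by
    gcongr
  refine e5.trans ?_
  have e6 : A * (1 / (2 * A) * (2.8 : ℝ) ^ n) = 2.8 ^ n / 2 := by
    field_simp
  rw [e6]
  have e7 : (2 : ℝ) ≤ 2.8 ^ n := by
    calc (2 : ℝ) ≤ 2.8 ^ 1 := by norm_num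
      _ ≤ 2.8 ^ n := pow_le_pow_right₀ (by norm_num) hn3
  linarith

end Pool.Agent.H43.ChrU
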