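import Pool.Agent.H43.Chr.Weights

set_option autoImplicit false

namespace Pool.Agent.H43.Chr

open Finset Real

/-- The weight of one coordinate. -/
noncomputable def wt (t : ℝ) (y : ℕ) : ℝ := exp (-(2 * t * y)) / gam t y

theorem gam_pos {t : ℝ} (ht : 0 < t) (y : ℕ) : 0 < gam t y := by
  unfold gam
  positivity

theorem one_le_gam {t : ℝ} (ht : 0 < t) (y : ℕ) : 1 ≤ gam t y := by
  unfold gam
  rw [le_div_iff₀ ht]
  have h1 : 1 ≤ exp (4 * t * y / 3) := one_le_exp (by positivity)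
  have h2 : 0 ≤ exp (4 * t / 3) / 2 := by positivity
  have h3 : 0 ≤ exp (-(4 * t * y)) * (1 / 2 + t) := by positivity
  nlinarith

theorem inv_gam_zero {t : ℝ} (ht : 0 < t) : wt t 0 ≤ t := by
  unfold wt
  rw [div_le_iff₀ (gam_pos ht 0)]
  unfold gam
  rw [mul_div_cancel₀ _ ht.ne']
  simp only [Nat.cast_zero, mul_zero, neg_zero, zero_div, exp_zero, one_mul]
  have : 0 < exp (4 * t / 3) / 2 := by positivity
  linarith

theorem wt_lower {t : ℝ} (ht : 0 < t) (ht1 : t ≤ 1 / 2) (y : ℕ) :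
    (t / (1 + 2 * t)) * (2 / 3) * (exp (-(2 * t / 3 * 5)) ^ y
      - exp (-(2 * t / 3 * 13)) ^ y / 3 + exp (-(2 * t / 3 * 21)) ^ y / 9
      - exp (-(2 * t / 3 * 29)) ^ y / 27 + exp (-(2 * t / 3 * 37)) ^ y / 81
      - exp (-(2 * t / 3 * 45)) ^ y / 243) ≤ wt t y := by
  set v : ℝ := exp (-(2 * t / 3 * y)) with hv
  have hv0 : 0 < v := exp_pos _
  have hpow : ∀ a : ℕ, exp (-(2 * t / 3 * a)) ^ y = v ^ a := by
    intro a
    rw [hv, ← exp_nat_mul, ← exp_nat_mul]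
    congr 1
    ring
  have e5 := hpow 5
  have e13 := hpow 13
  have e21 := hpow 21
  have e29 := hpow 29
  have e37 := hpow 37
  have e45 := hpow 45
  norm_num at e5 e13 e21 e29 e37 e45
  rw [e5, e13, e21, e29, e37, e45]
  have hu : exp (4 * t * y / 3) * v ^ 2 = 1 := by
    rw [hv, ← exp_nat_mul, ← exp_add]
    rw [exp_eq_one_iff]
    push_cast
    ring
  have hb : exp (-(4 * t * y)) = v ^ 6 := by
    rw [hv, ← exp_nat_mul]
    congr 1
    push_cast
    ring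
  have hr : exp (-(2 * t * y)) = v ^ 3 := by
    rw [hv, ← exp_nat_mul]
    congr 1
    push_cast
    ring
  have hc1 : exp (4 * t / 3) ≤ 1 + 4 * t := by
    have h1 : |4 * t / 3| ≤ 1 := by
      rw [abs_of_pos (by positivity)]
      linarith
    have h2 := abs_exp_sub_one_sub_id_le h1
    rw [abs_le] at h2
    nlinarith [h2.2]
  have hv2 : 0 < v ^ 2 := by positivity
  have hueq : exp (4 * t * y / 3) = 1 / v ^ 2 := by
    field_simp
    linarith
  have hgam : gam t y ≤ (1 + 2 * t) / t * (3 / 2 / v ^ 2 * (1 + v ^ 8 / 3)) := by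
    unfold gam
    rw [hb, hueq]
    have e1 : (1 + 2 * t) / t * (3 / 2 / v ^ 2 * (1 + v ^ 8 / 3))
        = (1 / v ^ 2 * ((3 / 2) * (1 + 2 * t)) + v ^ 6 * ((1 + 2 * t) / 2)) / t := by
      field_simp
    rw [e1]
    apply div_le_div_of_nonneg_right _ ht.le
    have e2 : exp (4 * t / 3) / 2 + 1 + t ≤ 3 / 2 * (1 + 2 * t) := by linarith
    have e3 : (1 : ℝ) / 2 + t = (1 + 2 * t) / 2 := by ring
    rw [e3]
    gcongr
  have hgp : 0 < (1 + 2 * t) / t * (3 / 2 / v ^ 2 * (1 + v ^ 8 / 3)) := by positivity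
  have hs : (1 : ℝ) - v ^ 8 / 3 + (v ^ 8 / 3) ^ 2 - (v ^ 8 / 3) ^ 3 + (v ^ 8 / 3) ^ 4
      - (v ^ 8 / 3) ^ 5 ≤ 1 / (1 + v ^ 8 / 3) := by
    have hp : 0 ≤ v ^ 8 / 3 := by positivity
    rw [le_div_iff₀ (by positivity)]
    nlinarith [pow_nonneg hp 6]
  unfold wt
  rw [hr]
  calc (t / (1 + 2 * t)) * (2 / 3) * (v ^ 5 - v ^ 13 / 3 + v ^ 21 / 9 - v ^ 29 / 27 + v ^ 37 / 81
        - v ^ 45 / 243)
      = (t / (1 + 2 * t)) * (2 / 3) * v ^ 5 * ((1 : ℝ) - v ^ 8 / 3 + (v ^ 8 / 3) ^ 2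
        - (v ^ 8 / 3) ^ 3 + (v ^ 8 / 3) ^ 4 - (v ^ 8 / 3) ^ 5) := by ring
    _ ≤ (t / (1 + 2 * t)) * (2 / 3) * v ^ 5 * (1 / (1 + v ^ 8 / 3)) := by gcongr
    _ = v ^ 3 / ((1 + 2 * t) / t * (3 / 2 / v ^ 2 * (1 + v ^ 8 / 3))) := by
        field_simp
    _ ≤ v ^ 3 / gam t y := by
        apply div_le_div_of_nonneg_left (by positivity) (gam_pos ht y) hgam

theorem geom_lower {t a : ℝ} (ht : 0 < t) (ha : 5 ≤ a) {M : ℕ} (hM : 16 ≤ 10 / 3 * t * (M + 1)) :
    (1 - 1 / 10 ^ 6) * (3 / (2 * t * a)) ≤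
      ∑ y ∈ range (M + 1), exp (-(2 * t / 3 * a)) ^ y := by
  set s : ℝ := 2 * t / 3 * a with hs
  have hs0 : 0 < s := by positivity
  have h1 : exp (-s) < 1 := by
    rw [exp_lt_one_iff]
    linarith
  rw [geom_sum_eq h1.ne]
  have h2 : 1 - exp (-s) ≤ s := by linarith [add_one_le_exp (-s)]
  have h3 : exp (-s) ^ (M + 1) ≤ 1 / 10 ^ 6 := by
    rw [← exp_nat_mul]
    have h4 : ((M + 1 : ℕ) : ℝ) * -s ≤ -16 := by
      push_cast
      have : 10 / 3 * t ≤ s := by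
        rw [hs]
        nlinarith
      nlinarith [this, (by positivity : (0 : ℝ) < (M : ℝ) + 1)]
    have h5 : exp (-16 : ℝ) ≤ 1 / 10 ^ 6 := by
      rw [exp_neg, ← one_div]
      apply one_div_le_one_div_of_le (by positivity)
      have h6 : exp (16 : ℝ) = exp 1 ^ 16 := by
        rw [← exp_nat_mul]
        norm_num
      rw [h6]
      calc (10 : ℝ) ^ 6 ≤ (2.7 : ℝ) ^ 16 := by norm_num
        _ ≤ exp 1 ^ 16 := pow_le_pow_left₀ (by norm_num) (by linarith [exp_one_gt_d9]) 16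
    exact (exp_le_exp.2 h4).trans h5
  have h7 : (exp (-s) ^ (M + 1) - 1) / (exp (-s) - 1)
      = (1 - exp (-s) ^ (M + 1)) / (1 - exp (-s)) := by
    rw [← neg_sub, ← neg_sub (1 : ℝ) (exp (-s)), neg_div_neg_eq]
  rw [h7]
  have h8 : 3 / (2 * t * a) = 1 / s := by
    rw [hs]
    field_simp
  rw [h8, mul_one_div]
  apply div_le_div₀ (by linarith [exp_pos (-s)]) (by linarith) (by linarith) h2

theorem geom_upper {t a : ℝ} (ht : 0 < t) (ha : 0 < a) (M : ℕ) :
    ∑ y ∈ range (M + 1), exp (-(2 * t / 3 * a)) ^ y ≤ 3 / (2 * t * a) + 1 := by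
  set s : ℝ := 2 * t / 3 * a with hs
  have hs0 : 0 < s := by positivity
  have h1 : exp (-s) < 1 := by
    rw [exp_lt_one_iff]
    linarith
  have h2 : ∑ y ∈ range (M + 1), exp (-s) ^ y ≤ 1 / (1 - exp (-s)) := by
    rw [range_eq_Ico]
    refine (geom_sum_Ico_le_of_lt_one (exp_pos _).le h1).trans ?_
    simp
  refine h2.trans ((inv_one_sub_exp_le hs0).trans (le_of_eq ?_))
  rw [hs]
  field_simp

theorem sum_wt_lower {t : ℝ} (ht : 0 < t) (ht1 : t ≤ 1 / 2) {M : ℕ}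
    (hM : 16 ≤ 10 / 3 * t * (M + 1)) :
    (1 / (1 + 2 * t)) * ((1 - 1 / 10 ^ 6) * (1 / 5 + 1 / 189 + 1 / 2997)
      - (1 / 39 + 1 / 783 + 1 / 10935) - t * (91 / 243) * (2 / 3))
      ≤ ∑ y ∈ range (M + 1), wt t y := by
  have h0 : ∑ y ∈ range (M + 1), ((t / (1 + 2 * t)) * (2 / 3) * (exp (-(2 * t / 3 * 5)) ^ y
      - exp (-(2 * t / 3 * 13)) ^ y / 3 + exp (-(2 * t / 3 * 21)) ^ y / 9
      - exp (-(2 * t / 3 * 29)) ^ y / 27 + exp (-(2 * t / 3 * 37)) ^ y / 81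
      - exp (-(2 * t / 3 * 45)) ^ y / 243)) ≤ ∑ y ∈ range (M + 1), wt t y :=
    sum_le_sum fun y _ => wt_lower ht ht1 y
  refine le_trans ?_ h0
  rw [← mul_sum]
  simp only [sum_add_distrib, sum_sub_distrib, ← sum_div]
  have g5 := geom_lower (a := 5) ht (by norm_num) hM
  have g21 := geom_lower (a := 21) ht (by norm_num) hM
  have g37 := geom_lower (a := 37) ht (by norm_num) hM
  have g13 := geom_upper (a := 13) ht (by norm_num) M
  have g29 := geom_upper (a := 29) ht (by norm_num) M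
  have g45 := geom_upper (a := 45) ht (by norm_num) M
  have hc : 0 < (t / (1 + 2 * t)) * (2 / 3) := by positivity
  calc (1 / (1 + 2 * t)) * ((1 - 1 / 10 ^ 6) * (1 / 5 + 1 / 189 + 1 / 2997)
      - (1 / 39 + 1 / 783 + 1 / 10935) - t * (91 / 243) * (2 / 3))
      = (t / (1 + 2 * t)) * (2 / 3) * ((1 - 1 / 10 ^ 6) * (3 / (2 * t * 5))
        - (3 / (2 * t * 13) + 1) / 3 + (1 - 1 / 10 ^ 6) * (3 / (2 * t * 21)) / 9
        - (3 / (2 * t * 29) + 1) / 27 + (1 - 1 / 10 ^ 6) * (3 / (2 * t * 37)) / 81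
        - (3 / (2 * t * 45) + 1) / 243) := by
        field_simp
        ring
    _ ≤ _ := by
        apply mul_le_mul_of_nonneg_left _ hc.le
        linarith

/-- The sum of the weights over all integers `x` with `|x| ≤ M`. -/
noncomputable def theta (t : ℝ) (M : ℕ) : ℝ :=
  ∑ x ∈ Icc (-(M : ℤ)) M, wt t x.natAbs

theorem theta_lower {t : ℝ} (ht : 0 < t) (M : ℕ) :
    2 * ∑ y ∈ range (M + 1), wt t y - t ≤ theta t M := by
  have h1 : theta t M = ∑ y ∈ range (M + 1), wt t y + ∑ y ∈ range M, wt t (y + 1) := by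
    unfold theta
    have h2 : Icc (-(M : ℤ)) M = (range (M + 1)).image (fun y : ℕ => (y : ℤ)) ∪
        (range M).image (fun y : ℕ => -((y : ℤ) + 1)) := by
      ext w
      simp only [mem_Icc, mem_union, mem_image, mem_range]
      constructor
      · intro h
        rcases le_or_gt 0 w with h' | h'
        · exact Or.inl ⟨w.toNat, by omega, by omega⟩
        · exact Or.inr ⟨(-w - 1).toNat, by omega, by omega⟩
      · rintro (⟨y, hy, rfl⟩ | ⟨y, hy, rfl⟩) <;> constructor <;> omega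
    rw [h2, sum_union, sum_image (fun a _ b _ h => by simpa using h),
      sum_image (fun a _ b _ h => by simpa using h)]
    · congr 1
    · rw [disjoint_left]
      intro w hw hw'
      simp only [mem_image, mem_range] at hw hw'
      obtain ⟨y, _, rfl⟩ := hw
      obtain ⟨y', _, h⟩ := hw'
      omega
  rw [h1]
  have h3 : ∑ y ∈ range (M + 1), wt t y = ∑ y ∈ range M, wt t (y + 1) + wt t 0 :=
    sum_range_succ' _ _
  have h4 := inv_gam_zero ht
  linarith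

theorem theta_num : (0.3572 : ℝ) ≤ theta (1 / 10 ^ 6) 5000000 := by
  have h1 := sum_wt_lower (t := 1 / 10 ^ 6) (by norm_num) (by norm_num) (M := 5000000)
    (by norm_num)
  have h2 := theta_lower (t := 1 / 10 ^ 6) (by norm_num) 5000000
  norm_num at h1 h2 ⊢
  linarith

end Pool.Agent.H43.Chr
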