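import Pool.Agent.H43.Chr.Final

set_option autoImplicit false
set_option maxHeartbeats 1000000

namespace Pool.Agent.H43.ChrU

open Finset Real Filter Pool.Agent.H43.Chr

/-- The main estimate in one dimension `n`, all constants explicit. -/
theorem colorable_of {t : ℝ} (ht : 0 < t) (n M C₂ m : ℕ) (hn : 1 ≤ n)
    (hC : ∀ y ≤ M, log (gam t y) ≤ C₂) (hθ : 0 < theta t M)
    (hn4 : 4 * exp (t * (2 * M + 3) + 1 + C₂) ≤ n)
    (hm : 16 * exp 1 ^ 2 * ((n * M + 1) * (n * C₂ + 1)) * (exp (3 * t) / theta t M) ^ n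
      * (n * log ((n + 1) * (2 * M + 2 * n * M + 3 * n))) < m) :
    (Pool.Agent.H43.L1.unitGraph n).Colorable m := by
  obtain ⟨k, Q, G, hk, hG1, hG2, hQ, hle⟩ := exists_class ht n M C₂ hC
  obtain ⟨D, hD⟩ : ∃ D : ℕ, D = 2 * k + 3 * n := ⟨_, rfl⟩
  obtain ⟨b, hb⟩ : ∃ b : ℕ, b = 2 * M + 2 * n * M + 3 * n := ⟨_, rfl⟩
  obtain ⟨L, hL⟩ : ∃ L : ℕ, L = n * b := ⟨_, rfl⟩
  obtain ⟨P, hP⟩ : ∃ P : ℕ, P = (n + 1) * b := ⟨_, rfl⟩
  obtain ⟨B, hB⟩ : ∃ B : ℕ, B = ⌊exp (t * D) * (exp 1 * G)⌋₊ := ⟨_, rfl⟩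
  obtain ⟨K, hK⟩ : ∃ K : ℕ, K = L ^ n / (2 * B) := ⟨_, rfl⟩
  obtain ⟨a, ha⟩ : ∃ a : ℕ, a = K * Q.card / 2 := ⟨_, rfl⟩
  have hn0 : (0 : ℝ) < n := by exact_mod_cast hn
  have hb3 : 3 * n ≤ b := by omega
  have hb0 : 0 < b := by omega
  have hbR : (0 : ℝ) < b := by exact_mod_cast hb0
  have hL0 : 0 < L := hL ▸ Nat.mul_pos hn hb0
  have hLR : (0 : ℝ) < L := by exact_mod_cast hL0
  have hLn : n ≤ L := hL ▸ Nat.le_mul_of_pos_right n hb0
  have hLnR : (n : ℝ) ≤ L := by exact_mod_cast hLn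
  have hP0 : 0 < P := hP ▸ Nat.mul_pos (by omega) hb0
  have hPR : (0 : ℝ) < P := by exact_mod_cast hP0
  -- bounds for B
  have hBarg : 1 ≤ exp (t * D) * (exp 1 * G) := by
    have h1 : 1 ≤ exp (t * D) := one_le_exp (by positivity)
    have h2 : 1 ≤ exp 1 := one_le_exp (by norm_num)
    nlinarith [mul_le_mul h2 hG1 zero_le_one (by positivity : (0 : ℝ) ≤ exp 1)]
  have hB1 : 1 ≤ B := hB ▸ (Nat.one_le_floor_iff _).2 hBarg
  have hBR : (1 : ℝ) ≤ B := by exact_mod_cast hB1
  have hBle : (B : ℝ) ≤ exp (t * D) * (exp 1 * G) := by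
    rw [hB]
    exact Nat.floor_le (by linarith)
  have hDle : (D : ℝ) ≤ n * (2 * M + 3) := by
    have : D ≤ n * (2 * M + 3) := by
      rw [hD]
      nlinarith
    exact_mod_cast this
  have hBE : (B : ℝ) ≤ exp (t * (2 * M + 3) + 1 + C₂) ^ n := by
    refine hBle.trans ?_
    calc exp (t * D) * (exp 1 * G) ≤ exp (t * (n * (2 * M + 3))) * (exp n * exp (n * C₂)) := by
          have h1 : (1 : ℝ) ≤ n := by exact_mod_cast hn
          gcongr
      _ = exp (t * (2 * M + 3) + 1 + C₂) ^ n := by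
          rw [← exp_add, ← exp_add, ← exp_nat_mul]
          congr 1
          ring
  have h4B : 4 * (B : ℝ) ≤ (L : ℝ) ^ n := by
    have h1 : (4 : ℝ) * exp (t * (2 * M + 3) + 1 + C₂) ^ n ≤
        (4 * exp (t * (2 * M + 3) + 1 + C₂)) ^ n := by
      rw [mul_pow]
      have : (4 : ℝ) ≤ 4 ^ n := by
        calc (4 : ℝ) = 4 ^ 1 := by norm_num
          _ ≤ 4 ^ n := pow_le_pow_right₀ (by norm_num) hn
      gcongr
    calc 4 * (B : ℝ) ≤ 4 * exp (t * (2 * M + 3) + 1 + C₂) ^ n := by gcongr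
      _ ≤ _ := h1
      _ ≤ (L : ℝ) ^ n := pow_le_pow_left₀ (by positivity) (hn4.trans hLnR) n
  -- K
  have h4BN : 4 * B ≤ L ^ n := by exact_mod_cast h4B
  have hK2 : 2 ≤ K := by
    rw [hK, Nat.le_div_iff_mul_le (by omega)]
    omega
  have hKle : 2 * (K * B) ≤ L ^ n := by
    have := Nat.div_mul_le_self (L ^ n) (2 * B)
    rw [← hK] at this
    nlinarith
  have hKge : (L : ℝ) ^ n / (4 * B) ≤ K := by
    have h1 : L ^ n < (K + 1) * (2 * B) := by
      have e1 := Nat.div_add_mod (L ^ n) (2 * B)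
      have e2 := Nat.mod_lt (L ^ n) (by omega : 2 * B > 0)
      rw [← hK] at e1
      calc L ^ n = 2 * B * K + L ^ n % (2 * B) := e1.symm
        _ < 2 * B * K + 2 * B := by omega
        _ = (K + 1) * (2 * B) := by ring
    have h2 : (L : ℝ) ^ n < (K + 1) * (2 * B) := by exact_mod_cast h1
    have h3 : (2 : ℝ) ≤ K := by exact_mod_cast hK2
    rw [div_le_iff₀ (by positivity)]
    nlinarith
  -- Q is nonempty
  have hN0 : (0 : ℝ) < ((n * M + 1) * (n * C₂ + 1)) := by positivity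
  have hQpos : 0 < Q.card := by
    by_contra hcon
    have h0 : Q.card = 0 := by omega
    rw [h0, Nat.cast_zero, zero_mul, zero_div] at hle
    have : 0 < theta t M ^ n / ((n * M + 1) * (n * C₂ + 1)) := div_pos (pow_pos hθ n) hN0
    linarith
  have hQR : (1 : ℝ) ≤ Q.card := by exact_mod_cast hQpos
  -- a
  have ha2 : 2 * a ≤ K * Q.card := by
    rw [ha]
    omega
  have hage : (K : ℝ) * Q.card / 4 ≤ a := by
    have h1 : K * Q.card < 2 * (a + 1) := by
      rw [ha]
      omega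
    have h2 : 2 ≤ K * Q.card := by nlinarith
    have h1' : (K : ℝ) * Q.card < 2 * (a + 1) := by exact_mod_cast h1
    have h2' : (2 : ℝ) ≤ (K : ℝ) * Q.card := by exact_mod_cast h2
    have h3 : K * Q.card ≤ 2 * a + 1 := by omega
    have h4 : 1 ≤ a := by omega
    have h3' : (K : ℝ) * Q.card ≤ 2 * a + 1 := by exact_mod_cast h3
    have h4' : (1 : ℝ) ≤ a := by exact_mod_cast h4
    linarith
  have ha0 : (0 : ℝ) < a := by
    have : (2 : ℝ) ≤ K := by exact_mod_cast hK2
    have h5 : 0 < (K : ℝ) * Q.card / 4 := by positivity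
    linarith
  -- the ratio
  have hBQ : (B : ℝ) / Q.card ≤ exp 1 * ((n * M + 1) * (n * C₂ + 1)) *
      (exp (3 * t) / theta t M) ^ n := by
    have hG0 : 0 < G := by linarith
    rw [div_le_iff₀ (by linarith)]
    have h1 : theta t M ^ n * G * exp (2 * t * k) ≤ Q.card * ((n * M + 1) * (n * C₂ + 1)) := by
      rw [div_le_div_iff₀ hN0 hG0] at hle
      have h2 : exp (-(2 * t * k)) * exp (2 * t * k) = 1 := by
        rw [← exp_add]
        simp
      calc theta t M ^ n * G * exp (2 * t * k)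
          ≤ (Q.card * exp (-(2 * t * k)) * ((n * M + 1) * (n * C₂ + 1))) * exp (2 * t * k) := by
            gcongr
        _ = Q.card * ((n * M + 1) * (n * C₂ + 1)) * (exp (-(2 * t * k)) * exp (2 * t * k)) := by ring
        _ = _ := by rw [h2, mul_one]
    have hθn : 0 < theta t M ^ n := pow_pos hθ n
    have h3 : exp (t * D) = exp (3 * t) ^ n * exp (2 * t * k) := by
      rw [← exp_nat_mul, ← exp_add]
      congr 1
      rw [hD]
      push_cast
      ring
    calc (B : ℝ) ≤ exp (t * D) * (exp 1 * G) := hBle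
      _ = exp 1 * (exp (3 * t) / theta t M) ^ n * (theta t M ^ n * G * exp (2 * t * k)) := by
          rw [h3, div_pow]
          field_simp
      _ ≤ exp 1 * (exp (3 * t) / theta t M) ^ n * (Q.card * ((n * M + 1) * (n * C₂ + 1))) := by
          gcongr
      _ = _ := by ring
  have hPL : (P : ℝ) ^ n ≤ exp 1 * (L : ℝ) ^ n := by
    have h1 : (P : ℝ) = (1 + 1 / n) * L := by
      rw [hP, hL]
      push_cast
      field_simp
    rw [h1, mul_pow]
    have h2 : (1 + 1 / (n : ℝ)) ^ n ≤ exp 1 := by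
      have h3 : 1 + 1 / (n : ℝ) ≤ exp (1 / n) := by linarith [add_one_le_exp (1 / (n : ℝ))]
      calc (1 + 1 / (n : ℝ)) ^ n ≤ exp (1 / n) ^ n := pow_le_pow_left₀ (by positivity) h3 n
        _ = exp 1 := by
            rw [← exp_nat_mul]
            congr 1
            field_simp
    gcongr
  have hPa : (P : ℝ) ^ n / a ≤ 16 * exp 1 ^ 2 * ((n * M + 1) * (n * C₂ + 1)) *
      (exp (3 * t) / theta t M) ^ n := by
    have h1 : (L : ℝ) ^ n * Q.card / (16 * B) ≤ a := by
      refine le_trans ?_ hage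
      have : (L : ℝ) ^ n * Q.card / (16 * B) = ((L : ℝ) ^ n / (4 * B)) * Q.card / 4 := by
        field_simp
        ring
      rw [this]
      gcongr
    have h2 : 0 < (L : ℝ) ^ n * Q.card / (16 * B) := by positivity
    calc (P : ℝ) ^ n / a ≤ (exp 1 * (L : ℝ) ^ n) / ((L : ℝ) ^ n * Q.card / (16 * B)) :=
          div_le_div₀ (by positivity) hPL h2 h1
      _ = 16 * exp 1 * (B / Q.card) := by
          field_simp
      _ ≤ 16 * exp 1 * (exp 1 * ((n * M + 1) * (n * C₂ + 1)) *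
          (exp (3 * t) / theta t M) ^ n) := by gcongr
      _ = _ := by ring
  -- covering condition
  have hlogP : log ((n + 1) * (2 * M + 2 * n * M + 3 * n)) = log P := by
    rw [hP, hb]
    push_cast
    rfl
  rw [hlogP] at hm
  have hP1 : (1 : ℝ) ≤ P := by exact_mod_cast hP0
  have hlog0 : 0 ≤ log P := log_nonneg hP1
  have hmm : (P : ℝ) ^ n / a * (n * log P) < m :=
    lt_of_le_of_lt (mul_le_mul_of_nonneg_right hPa (by positivity)) hm
  have hMc : P ^ n * (P ^ n - a) ^ m < (P ^ n) ^ m := by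
    have hPn0 : (0 : ℝ) < (P : ℝ) ^ n := by positivity
    have h1 : ((P ^ n - a : ℕ) : ℝ) ≤ (P : ℝ) ^ n * exp (-(a / (P : ℝ) ^ n)) := by
      rcases le_or_gt a (P ^ n) with h | h
      · rw [Nat.cast_sub h]
        push_cast
        have h2 := add_one_le_exp (-(a / (P : ℝ) ^ n))
        calc (P : ℝ) ^ n - a = (P : ℝ) ^ n * (-(a / (P : ℝ) ^ n) + 1) := by
              field_simp
              ring
          _ ≤ _ := by gcongr
      · rw [Nat.sub_eq_zero_of_le h.le]
        simp only [Nat.cast_zero]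
        positivity
    have h2 : ((P ^ n * (P ^ n - a) ^ m : ℕ) : ℝ) < (((P ^ n) ^ m : ℕ) : ℝ) := by
      push_cast
      calc (P : ℝ) ^ n * ((P ^ n - a : ℕ) : ℝ) ^ m
          ≤ (P : ℝ) ^ n * ((P : ℝ) ^ n * exp (-(a / (P : ℝ) ^ n))) ^ m := by
            gcongr
        _ = ((P : ℝ) ^ n) ^ m * (exp (n * log P) * exp (-(a / (P : ℝ) ^ n) * m)) := by
            rw [mul_pow, ← exp_nat_mul _ m]
            have h3 : exp (n * log P) = (P : ℝ) ^ n := by
              rw [exp_nat_mul, exp_log (by linarith)]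
            rw [h3]
            ring_nf
        _ < ((P : ℝ) ^ n) ^ m * 1 := by
            apply mul_lt_mul_of_pos_left _ (by positivity)
            rw [← exp_add, exp_lt_one_iff]
            rw [div_mul_eq_mul_div, div_lt_iff₀ ha0] at hmm
            have h4 : n * log P < a / (P : ℝ) ^ n * m := by
              rw [div_mul_eq_mul_div, lt_div_iff₀ hPn0]
              nlinarith
            linarith
        _ = ((P : ℝ) ^ n) ^ m := mul_one _
    exact_mod_cast h2
  -- the colouring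
  obtain ⟨c, hc⟩ := color_of_cells (n := n) L M D (2 * k) K m P B a Q
    (by
      intro x hx y hy
      have h1 := (hQ x hx).2.1
      have h2 := (hQ y hy).2.1
      unfold nz at *
      push_cast
      calc ∑ i, |(x - y) i| ≤ ∑ i, (|x i| + |y i|) := sum_le_sum fun i _ => abs_sub _ _
        _ = 2 * k := by
            rw [sum_add_distrib, h1, h2]
            ring)
    (fun x hx i => (hQ x hx).1 i) (by omega) hL0
    (by
      intro x hx u
      rw [hB]
      apply Nat.le_floor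
      refine (count_bad ht D x u).trans ?_
      gcongr
      exact (hQ x hx).2.2)
    hKle (by
      rw [hP, hD, hL]
      have h1 : 2 * k ≤ 2 * n * M := by nlinarith
      have h2 : (n + 1) * b = n * b + b := by ring
      rw [h2]
      omega) ha2 hMc
  refine ⟨⟨fun x => c fun i => (2 * k + 3 * n / 2) * x i, ?_⟩⟩
  intro x y hxy
  change ∑ i, |x i - y i| = 1 at hxy
  have h1 : ∑ i, |(2 * (k : ℝ) + 3 * n / 2) * x i - (2 * k + 3 * n / 2) * y i|
      = 2 * k + 3 * n / 2 := by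
    simp_rw [← mul_sub, abs_mul]
    rw [← mul_sum, hxy, mul_one, abs_of_pos (by positivity)]
  apply hc
  · rw [h1]
    push_cast
    linarith
  · rw [h1, hD]
    push_cast
    linarith

end Pool.Agent.H43.ChrU
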