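import Pool.Agent.H43.Chr.Color

set_option autoImplicit false

namespace Pool.Agent.H43.Chr

open Finset Real

/-- The upper bound for the exponential sum over one coordinate. -/
noncomputable def gam (t : ℝ) (y : ℕ) : ℝ :=
  (exp (4 * t * y / 3) * (exp (4 * t / 3) / 2 + 1 + t) + exp (-(4 * t * y)) * (1 / 2 + t)) / t

theorem inv_one_sub_exp_le {t : ℝ} (ht : 0 < t) : 1 / (1 - exp (-t)) ≤ 1 / t + 1 := by
  have h1 : t / (1 + t) ≤ 1 - exp (-t) := by
    have h2 : exp (-t) ≤ 1 / (1 + t) := by
      rw [exp_neg, ← one_div]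
      exact one_div_le_one_div_of_le (by linarith) (by linarith [add_one_le_exp t])
    have h3 : t / (1 + t) = 1 - 1 / (1 + t) := by
      field_simp
      ring
    rw [h3]
    linarith
  have h4 : 0 < t / (1 + t) := by positivity
  calc 1 / (1 - exp (-t)) ≤ 1 / (t / (1 + t)) := one_div_le_one_div_of_le h4 h1
    _ = 1 / t + 1 := by
      field_simp

theorem sum_pos_part {t : ℝ} (ht : 0 < t) (y L : ℕ) :
    ∑ w ∈ range L, exp (-(t * sc w y)) ≤
      (exp (4 * t * y / 3) * exp (4 * t / 3) - 1) / (2 * t) + exp (4 * t * y / 3) * (1 / t + 1) := by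
  set m : ℕ := (2 * y + 2) / 3 with hm
  have hm1 : 2 * y ≤ 3 * m := by omega
  have hm2 : 3 * m ≤ 2 * y + 2 := by omega
  have hm1' : (2 : ℝ) * y ≤ 3 * m := by exact_mod_cast hm1
  have hm2' : (3 : ℝ) * m ≤ 2 * y + 2 := by exact_mod_cast hm2
  have hq : exp (-t) < 1 := by
    rw [exp_lt_one_iff]
    linarith
  have hq0 : 0 < 1 - exp (-t) := by linarith
  have h1 : ∑ w ∈ range L, exp (-(t * sc w y)) ≤
      ∑ w ∈ range m, exp (2 * t) ^ w + ∑ w ∈ Ico m L, exp (2 * t * y) * exp (-t) ^ w := by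
    have hsub : range L ⊆ range m ∪ Ico m L := by
      intro w hw
      simp only [mem_union, mem_range, mem_Ico] at *
      omega
    calc ∑ w ∈ range L, exp (-(t * sc w y))
        ≤ ∑ w ∈ range m ∪ Ico m L, exp (-(t * sc w y)) :=
          sum_le_sum_of_subset_of_nonneg hsub fun _ _ _ => (exp_pos _).le
      _ = ∑ w ∈ range m, exp (-(t * sc w y)) + ∑ w ∈ Ico m L, exp (-(t * sc w y)) := by
          rw [sum_union]
          rw [disjoint_left]
          intro w hw hw'
          simp only [mem_range, mem_Ico] at *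
          omega
      _ ≤ _ := by
          refine add_le_add (sum_le_sum fun w _ => ?_) (sum_le_sum fun w _ => ?_)
          · rw [← exp_nat_mul]
            apply exp_le_exp.2
            have h2 : -(2 * (w : ℤ)) ≤ sc w y := by
              unfold sc
              rw [abs_of_nonneg (by omega : (0 : ℤ) ≤ w)]
              exact le_max_left _ _
            have h3 : -(2 * (w : ℝ)) ≤ sc w y := by exact_mod_cast h2
            nlinarith
          · rw [← exp_nat_mul, ← exp_add]
            apply exp_le_exp.2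
            have h2 : (w : ℤ) - 2 * y ≤ sc w y := by
              rcases Nat.eq_zero_or_pos w with h0 | h0
              · subst h0
                simp only [Nat.cast_zero, sc_zero]
                omega
              · rw [sc_pos (by omega)]
                omega
            have h3 : (w : ℝ) - 2 * y ≤ sc w y := by exact_mod_cast h2
            nlinarith
  have h4 : ∑ w ∈ range m, exp (2 * t) ^ w ≤ (exp (4 * t * y / 3) * exp (4 * t / 3) - 1) / (2 * t) := by
    have h5 : exp (2 * t) ≠ 1 := by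
      have : 1 < exp (2 * t) := by
        rw [one_lt_exp_iff]
        linarith
      exact this.ne'
    rw [geom_sum_eq h5]
    have h6 : 2 * t ≤ exp (2 * t) - 1 := by linarith [add_one_le_exp (2 * t)]
    have h7 : exp (2 * t) ^ m ≤ exp (4 * t * y / 3) * exp (4 * t / 3) := by
      rw [← exp_nat_mul, ← exp_add]
      apply exp_le_exp.2
      nlinarith
    have h8 : 1 ≤ exp (2 * t) ^ m := one_le_pow₀ (one_le_exp (by linarith))
    exact div_le_div₀ (by linarith) (by linarith) (by linarith) h6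
  have h9 : ∑ w ∈ Ico m L, exp (2 * t * y) * exp (-t) ^ w ≤ exp (4 * t * y / 3) * (1 / t + 1) := by
    rw [← mul_sum]
    have h10 : ∑ w ∈ Ico m L, exp (-t) ^ w ≤ exp (-t) ^ m / (1 - exp (-t)) :=
      geom_sum_Ico_le_of_lt_one (exp_pos _).le hq
    have h11 : exp (2 * t * y) * exp (-t) ^ m ≤ exp (4 * t * y / 3) := by
      rw [← exp_nat_mul, ← exp_add]
      apply exp_le_exp.2
      nlinarith
    calc exp (2 * t * y) * ∑ w ∈ Ico m L, exp (-t) ^ w
        ≤ exp (2 * t * y) * (exp (-t) ^ m / (1 - exp (-t))) := by gcongr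
      _ = (exp (2 * t * y) * exp (-t) ^ m) * (1 / (1 - exp (-t))) := by ring
      _ ≤ exp (4 * t * y / 3) * (1 / t + 1) := by
          gcongr
          exact inv_one_sub_exp_le ht
  exact h1.trans (add_le_add h4 h9)

theorem sum_neg_part {t : ℝ} (ht : 0 < t) (y L : ℕ) :
    ∑ j ∈ range L, exp (-(t * sc (-((j : ℤ) + 1)) y)) ≤
      (1 - exp (-(4 * t * y))) / (2 * t) + exp (-(4 * t * y)) * (1 / t + 1) := by
  have hq : exp (-t) < 1 := by
    rw [exp_lt_one_iff]
    linarith
  have hq0 : 0 < 1 - exp (-t) := by linarith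
  have hr : exp (-(2 * t)) < 1 := by
    rw [exp_lt_one_iff]
    linarith
  have hr0 : 0 < 1 - exp (-(2 * t)) := by linarith
  have h1 : ∑ j ∈ range L, exp (-(t * sc (-((j : ℤ) + 1)) y)) ≤
      ∑ j ∈ range (2 * y - 1), exp (-(2 * t)) * exp (-(2 * t)) ^ j
        + ∑ j ∈ Ico (2 * y - 1) L, exp (-(t + 2 * t * y)) * exp (-t) ^ j := by
    have hsub : range L ⊆ range (2 * y - 1) ∪ Ico (2 * y - 1) L := by
      intro w hw
      simp only [mem_union, mem_range, mem_Ico] at *
      omega
    calc ∑ j ∈ range L, exp (-(t * sc (-((j : ℤ) + 1)) y))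
        ≤ ∑ j ∈ range (2 * y - 1) ∪ Ico (2 * y - 1) L, exp (-(t * sc (-((j : ℤ) + 1)) y)) :=
          sum_le_sum_of_subset_of_nonneg hsub fun _ _ _ => (exp_pos _).le
      _ = ∑ j ∈ range (2 * y - 1), exp (-(t * sc (-((j : ℤ) + 1)) y))
          + ∑ j ∈ Ico (2 * y - 1) L, exp (-(t * sc (-((j : ℤ) + 1)) y)) := by
          rw [sum_union]
          rw [disjoint_left]
          intro w hw hw'
          simp only [mem_range, mem_Ico] at *
          omega
      _ ≤ _ := by
          refine add_le_add (sum_le_sum fun j hj => ?_) (sum_le_sum fun j hj => ?_)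
          · rw [← exp_nat_mul, ← exp_add]
            apply exp_le_exp.2
            rw [mem_range] at hj
            have h2 : 2 * ((j : ℤ) + 1) ≤ sc (-((j : ℤ) + 1)) y := by
              rw [sc_neg (by omega)]
              omega
            have h3 : 2 * ((j : ℝ) + 1) ≤ sc (-((j : ℤ) + 1)) y := by exact_mod_cast h2
            nlinarith
          · rw [← exp_nat_mul, ← exp_add]
            apply exp_le_exp.2
            rw [mem_Ico] at hj
            have h2 : ((j : ℤ) + 1) + 2 * y ≤ sc (-((j : ℤ) + 1)) y := by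
              rw [sc_neg (by omega)]
              omega
            have h3 : ((j : ℝ) + 1) + 2 * y ≤ sc (-((j : ℤ) + 1)) y := by exact_mod_cast h2
            nlinarith
  have h4 : ∑ j ∈ range (2 * y - 1), exp (-(2 * t)) * exp (-(2 * t)) ^ j
      ≤ (1 - exp (-(4 * t * y))) / (2 * t) := by
    rw [← mul_sum, geom_sum_eq hr.ne]
    have h5 : exp (-(2 * t)) / (1 - exp (-(2 * t))) ≤ 1 / (2 * t) := by
      rw [div_le_div_iff₀ hr0 (by linarith)]
      have h6 : 2 * t + 1 ≤ exp (2 * t) := add_one_le_exp (2 * t)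
      have h7 : exp (-(2 * t)) * exp (2 * t) = 1 := by
        rw [← exp_add]
        simp
      nlinarith [exp_pos (-(2 * t))]
    have h8 : exp (-(4 * t * y)) ≤ exp (-(2 * t)) ^ (2 * y - 1) := by
      rw [← exp_nat_mul]
      apply exp_le_exp.2
      have h9 : ((2 * y - 1 : ℕ) : ℝ) ≤ 2 * y := by
        have : 2 * y - 1 ≤ 2 * y := Nat.sub_le _ _
        exact_mod_cast this
      nlinarith
    have h10 : exp (-(2 * t)) ^ (2 * y - 1) ≤ 1 := pow_le_one₀ (exp_pos _).le hr.le
    have h11 : exp (-(2 * t)) * ((exp (-(2 * t)) ^ (2 * y - 1) - 1) / (exp (-(2 * t)) - 1))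
        = (exp (-(2 * t)) / (1 - exp (-(2 * t)))) * (1 - exp (-(2 * t)) ^ (2 * y - 1)) := by
      have : exp (-(2 * t)) - 1 = -(1 - exp (-(2 * t))) := by ring
      rw [this]
      field_simp
      ring
    rw [h11]
    calc (exp (-(2 * t)) / (1 - exp (-(2 * t)))) * (1 - exp (-(2 * t)) ^ (2 * y - 1))
        ≤ (1 / (2 * t)) * (1 - exp (-(4 * t * y))) := by
          apply mul_le_mul h5 (by linarith) (by linarith) (by positivity)
      _ = (1 - exp (-(4 * t * y))) / (2 * t) := by ring
  have h9 : ∑ j ∈ Ico (2 * y - 1) L, exp (-(t + 2 * t * y)) * exp (-t) ^ j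
      ≤ exp (-(4 * t * y)) * (1 / t + 1) := by
    rw [← mul_sum]
    have h10 : ∑ w ∈ Ico (2 * y - 1) L, exp (-t) ^ w ≤ exp (-t) ^ (2 * y - 1) / (1 - exp (-t)) :=
      geom_sum_Ico_le_of_lt_one (exp_pos _).le hq
    have h11 : exp (-(t + 2 * t * y)) * exp (-t) ^ (2 * y - 1) ≤ exp (-(4 * t * y)) := by
      rw [← exp_nat_mul, ← exp_add]
      apply exp_le_exp.2
      have h12 : (2 : ℝ) * y ≤ ((2 * y - 1 : ℕ) : ℝ) + 1 := by
        have : 2 * y ≤ 2 * y - 1 + 1 := by omega
        exact_mod_cast this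
      nlinarith
    calc exp (-(t + 2 * t * y)) * ∑ w ∈ Ico (2 * y - 1) L, exp (-t) ^ w
        ≤ exp (-(t + 2 * t * y)) * (exp (-t) ^ (2 * y - 1) / (1 - exp (-t))) := by gcongr
      _ = (exp (-(t + 2 * t * y)) * exp (-t) ^ (2 * y - 1)) * (1 / (1 - exp (-t))) := by ring
      _ ≤ exp (-(4 * t * y)) * (1 / t + 1) := by
          gcongr
          exact inv_one_sub_exp_le ht
  exact h1.trans (add_le_add h4 h9)

theorem sum_both {t : ℝ} (ht : 0 < t) (y L : ℕ) :
    ∑ w ∈ range L, exp (-(t * sc w y)) + ∑ j ∈ range L, exp (-(t * sc (-((j : ℤ) + 1)) y))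
      ≤ gam t y := by
  refine (add_le_add (sum_pos_part ht y L) (sum_neg_part ht y L)).trans (le_of_eq ?_)
  unfold gam
  field_simp
  ring

theorem sum_union_inter_le_aux {α : Type*} [DecidableEq α] (f : α → ℝ) (hf : ∀ a, 0 ≤ f a)
    (s t : Finset α) : ∑ a ∈ s ∪ t, f a ≤ ∑ a ∈ s, f a + ∑ a ∈ t, f a := by
  rw [← sum_union_inter]
  have := sum_nonneg fun a (_ : a ∈ s ∩ t) => hf a
  linarith

theorem sc_neg_neg (w x : ℤ) : sc (-w) (-x) = sc w x := by
  unfold sc
  rw [abs_neg, Int.sign_neg]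
  ring_nf

/-- The sum over the second point for one coordinate. -/
theorem sum_fin {t : ℝ} (ht : 0 < t) (x : ℤ) (L : ℕ) (b : Fin L) :
    ∑ a : Fin L, exp (-(t * sc ((a.val : ℤ) - b.val) x)) ≤ gam t x.natAbs := by
  have key : ∀ y : ℕ, ∀ ε : ℤ, (ε = 1 ∨ ε = -1) →
      ∑ a : Fin L, exp (-(t * sc (ε * ((a.val : ℤ) - b.val)) y)) ≤ gam t y := by
    intro y ε hε
    refine le_trans ?_ (sum_both ht y L)
    set f : ℤ → ℝ := fun w => exp (-(t * sc w y)) with hf
    have hf0 : ∀ w, 0 ≤ f w := fun w => (exp_pos _).le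
    have h1 : ∑ a : Fin L, f (ε * ((a.val : ℤ) - b.val))
        = ∑ w ∈ univ.image (fun a : Fin L => ε * ((a.val : ℤ) - b.val)), f w := by
      rw [sum_image]
      intro a _ a' _ haa
      simp only at haa
      apply Fin.ext
      rcases hε with h | h <;> rw [h] at haa <;> omega
    have h2 : univ.image (fun a : Fin L => ε * ((a.val : ℤ) - b.val)) ⊆
        (range L).image (fun w : ℕ => (w : ℤ)) ∪ (range L).image (fun j : ℕ => -((j : ℤ) + 1)) := by
      intro w hw
      simp only [mem_image, mem_univ, true_and, mem_union, mem_range] at hw ⊢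
      obtain ⟨a, rfl⟩ := hw
      have ha := a.2
      have hb := b.2
      rcases le_or_gt 0 (ε * ((a.val : ℤ) - b.val)) with h | h
      · left
        refine ⟨(ε * ((a.val : ℤ) - b.val)).toNat, ?_, ?_⟩
        · rcases hε with h' | h' <;> rw [h'] at h ⊢ <;> omega
        · exact Int.toNat_of_nonneg h
      · right
        refine ⟨(-(ε * ((a.val : ℤ) - b.val)) - 1).toNat, ?_, ?_⟩
        · rcases hε with h' | h' <;> rw [h'] at h ⊢ <;> omega
        · rw [Int.toNat_of_nonneg (by omega)]
          ring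
    change ∑ a : Fin L, f (ε * ((a.val : ℤ) - b.val)) ≤ _
    rw [h1]
    refine (sum_le_sum_of_subset_of_nonneg h2 fun w _ _ => hf0 w).trans ?_
    refine (sum_union_inter_le_aux f hf0 _ _).trans ?_
    refine add_le_add ?_ ?_
    · rw [sum_image (fun a _ b _ h => by simpa using h)]
    · rw [sum_image (fun a _ b _ h => by simpa using h)]
  rcases le_or_gt 0 x with h | h
  · have := key x.natAbs 1 (Or.inl rfl)
    simp only [one_mul] at this
    rwa [Int.natAbs_of_nonneg h] at this
  · have := key x.natAbs (-1) (Or.inr rfl)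
    refine le_trans (le_of_eq ?_) this
    refine sum_congr rfl fun a _ => ?_
    have h2 : ((x.natAbs : ℕ) : ℤ) = -x := by omega
    rw [h2, neg_one_mul, sc_neg_neg]

end Pool.Agent.H43.Chr
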